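import Pool.Agent.Q188.FC.StmK
import Pool.Agent.W716.FV.Final

/-!
# The formula for the derivative of the field
-/

set_option autoImplicit false

open MeasureTheory Set

namespace Pool.Agent.Q128.FC.GO

open Pool.Agent.W716.FV (E gam gd)
open Pool.Agent.Q188.FC

theorem gd_nonneg (n : ℕ) (x : E n) : 0 ≤ gd n x := by
  unfold gd
  positivity

theorem gd_cont (n : ℕ) : Continuous (gd n) := by
  unfold gd
  fun_prop

theorem int_gam {n : ℕ} (f : E n → ℝ) : ∫ x, f x ∂(gam n) = ∫ x, gd n x * f x := by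
  unfold gam
  rw [integral_withDensity_eq_integral_toReal_smul (gd_cont n).measurable.ennreal_ofReal
    (Filter.Eventually.of_forall fun x => ENNReal.ofReal_lt_top)]
  refine integral_congr_ae (Filter.Eventually.of_forall fun x => ?_)
  simp only [smul_eq_mul]
  rw [ENNReal.toReal_ofReal (gd_nonneg n x)]

/-- polynomially bounded continuous functions are integrable -/
theorem int_pb {n : ℕ} {f : E n → ℝ} (hf : Continuous f) (C : ℝ) (m : ℕ)
    (h : ∀ x, |f x| ≤ C * (1 + ‖x‖) ^ m) : Integrable f (gam n) := by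
  have h1 : Integrable (fun x : E n => C * (1 + ‖x‖) ^ m) (gam n) := by
    have h2 : (fun z : E n => C * (1 + ‖z‖) ^ m) =
        fun z : E n => ∑ k ∈ Finset.range (m + 1), (C * (m.choose k : ℝ)) * ‖z‖ ^ k := by
      funext z
      rw [add_comm 1 ‖z‖, add_pow, Finset.mul_sum]
      refine Finset.sum_congr rfl fun k _ => ?_
      ring
    rw [h2]
    exact integrable_finsetSum _ fun k _ => ((Pool.Agent.W716.FV.gM n).2.1 k).const_mul _
  exact h1.mono' hf.aestronglyMeasurable (Filter.Eventually.of_forall fun x => h x)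

theorem inner_bd {n : ℕ} (u z : E n) : |(inner ℝ u z : ℝ)| ≤ ‖u‖ * (1 + ‖z‖) :=
  (abs_real_inner_le_norm u z).trans
    (mul_le_mul_of_nonneg_left (by linarith [norm_nonneg z]) (norm_nonneg u))

theorem mul_bd {n : ℕ} {f g : E n → ℝ} {C D : ℝ} {k l : ℕ} (hf : ∀ x, |f x| ≤ C * (1 + ‖x‖) ^ k)
    (hg : ∀ x, |g x| ≤ D * (1 + ‖x‖) ^ l) :
    ∀ x, |f x * g x| ≤ (C * D) * (1 + ‖x‖) ^ (k + l) := by
  intro x
  rw [abs_mul, pow_add]
  calc |f x| * |g x| ≤ (C * (1 + ‖x‖) ^ k) * (D * (1 + ‖x‖) ^ l) :=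
        mul_le_mul (hf x) (hg x) (abs_nonneg _) ((abs_nonneg _).trans (hf x))
    _ = _ := by ring

/-- a function with its integral -/
def HI (n : ℕ) (f : E n → ℝ) (v : ℝ) : Prop :=
  Integrable f (gam n) ∧ ∫ x, f x ∂(gam n) = v

theorem HI.add {n : ℕ} {f g : E n → ℝ} {v w : ℝ} (hf : HI n f v) (hg : HI n g w) :
    HI n (fun x => f x + g x) (v + w) :=
  ⟨hf.1.add hg.1, by rw [integral_add hf.1 hg.1, hf.2, hg.2]⟩

theorem HI.sub {n : ℕ} {f g : E n → ℝ} {v w : ℝ} (hf : HI n f v) (hg : HI n g w) :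
    HI n (fun x => f x - g x) (v - w) :=
  ⟨hf.1.sub hg.1, by rw [integral_sub hf.1 hg.1, hf.2, hg.2]⟩

theorem HI.cmul {n : ℕ} {f : E n → ℝ} {v : ℝ} (c : ℝ) (hf : HI n f v) :
    HI n (fun x => c * f x) (c * v) :=
  ⟨hf.1.const_mul c, by rw [integral_const_mul, hf.2]⟩

theorem HI.congr {n : ℕ} {f g : E n → ℝ} {v w : ℝ} (hf : HI n f v) (h : ∀ x, g x = f x)
    (hv : v = w) : HI n g w := by
  have : g = f := funext h
  rw [this, ← hv]
  exact hf

theorem lin_int (A B x y : ℝ) : ∫ t in x..y, (A * t + B) = A * ((y ^ 2 - x ^ 2) / 2) + B * (y - x) := by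
  rw [intervalIntegral.integral_add (Continuous.intervalIntegrable (by fun_prop) _ _)
    (Continuous.intervalIntegrable (by fun_prop) _ _), intervalIntegral.integral_const_mul,
    integral_id, intervalIntegral.integral_const, smul_eq_mul]
  ring

theorem main (h1 : BoostAlg) (h2 : TLs) (h3 : HatLin) (h4 : CcBasic) (h5 : GMom) : GGForm := by
  intro n p hp φ ψ hφ hψ hh a a'
  obtain ⟨-, -, hNpp, -, -, hNN, -, hpN, -, -, -, -, -, -, -, -, -⟩ := h1 n p hp
  obtain ⟨-, hz, -, c0, cp, -, -⟩ := h3 n p hp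
  obtain ⟨-, hψc, hψb, -, -, -, hmv, -, -⟩ := h4 n ψ hψ
  set b := NN p a with hb
  set b' := NN p a' with hb'
  set γ := lf p with hγ
  set β : ℝ := inner ℝ p a with hβ
  set β' : ℝ := inner ℝ p a' with hβ'
  set k : ℝ × E n → ℝ := fun c => dk p a a' c with hk
  have hkc : Continuous k := by
    have hg : Continuous fun c : ℝ × E n => gd n c.2 := (gd_cont n).comp continuous_snd
    simp only [hk, dk]
    fun_prop
  have hkb : ∀ (t : ℝ) (z : E n), |t| ≤ ‖z‖ →
      ‖k (t, z)‖ ≤ (2 * ‖b‖ * ‖b'‖ + |γ| * (|β'| * ‖b‖ + |β| * ‖b'‖)) * (1 + ‖z‖) ^ 3 *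
        gd n z := by
    intro t z ht
    have e : k (t, z) = gd n z * (t * (inner ℝ b z * inner ℝ b' z - inner ℝ b b') +
        γ * (β' * inner ℝ b z - β * inner ℝ b' z)) := rfl
    rw [e, Real.norm_eq_abs, abs_mul, abs_of_nonneg (gd_nonneg n z), mul_comm (gd n z)]
    refine mul_le_mul_of_nonneg_right ?_ (gd_nonneg n z)
    have hz0 := norm_nonneg z
    have hb0 := norm_nonneg b
    have hb0' := norm_nonneg b'
    have i1 := abs_real_inner_le_norm b z
    have i2 := abs_real_inner_le_norm b' z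
    have i3 := abs_real_inner_le_norm b b'
    have j1 : |t * (inner ℝ b z * inner ℝ b' z - inner ℝ b b')| ≤
        ‖z‖ * ((‖b‖ * ‖z‖) * (‖b'‖ * ‖z‖) + ‖b‖ * ‖b'‖) := by
      rw [abs_mul]
      refine mul_le_mul ht ?_ (abs_nonneg _) hz0
      refine (abs_sub _ _).trans (add_le_add ?_ i3)
      rw [abs_mul]
      exact mul_le_mul i1 i2 (abs_nonneg _) (by positivity)
    have j2 : |γ * (β' * inner ℝ b z - β * inner ℝ b' z)| ≤
        |γ| * (|β'| * (‖b‖ * ‖z‖) + |β| * (‖b'‖ * ‖z‖)) := by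
      rw [abs_mul]
      refine mul_le_mul_of_nonneg_left ?_ (abs_nonneg _)
      refine (abs_sub _ _).trans (add_le_add ?_ ?_)
      · rw [abs_mul]
        exact mul_le_mul_of_nonneg_left i1 (abs_nonneg _)
      · rw [abs_mul]
        exact mul_le_mul_of_nonneg_left i2 (abs_nonneg _)
    refine (abs_add_le _ _).trans ((add_le_add j1 j2).trans ?_)
    have p1 : ‖z‖ ≤ (1 + ‖z‖) ^ 3 := by nlinarith [sq_nonneg ‖z‖, mul_nonneg hz0 (sq_nonneg ‖z‖)]
    have p2 : ‖z‖ * ‖z‖ ^ 2 ≤ (1 + ‖z‖) ^ 3 := by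
      nlinarith [sq_nonneg ‖z‖, mul_nonneg hz0 (sq_nonneg ‖z‖)]
    have q1 : 0 ≤ ‖b‖ * ‖b'‖ := by positivity
    have q2 : 0 ≤ |γ| * (|β'| * ‖b‖ + |β| * ‖b'‖) := by positivity
    have r1 := mul_le_mul_of_nonneg_left p1 q1
    have r2 := mul_le_mul_of_nonneg_left p2 q1
    have r3 := mul_le_mul_of_nonneg_left p1 q2
    nlinarith [r1, r2, r3]
  obtain ⟨-, -, hT⟩ := h2 n p hp (fun _ => 0) φ (fun z => -inner ℝ p z) ψ c0 hφ cp hψ hz hh ℝ k _ 3
    hkc hkb
  -- the inner integral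
  have hin : ∀ z : E n, ∫ t in (-inner ℝ p z)..ψ z, k (t, z) =
      gd n z * ((ψ z ^ 2 - inner ℝ p z ^ 2) / 2 *
        (inner ℝ b z * inner ℝ b' z - inner ℝ b b') + (ψ z + inner ℝ p z) *
        (γ * (β' * inner ℝ b z - β * inner ℝ b' z))) := by
    intro z
    have e : ∀ t, k (t, z) = (gd n z * (inner ℝ b z * inner ℝ b' z - inner ℝ b b')) * t +
        gd n z * (γ * (β' * inner ℝ b z - β * inner ℝ b' z)) := by
      intro t
      show gd n z * (t * (inner ℝ b z * inner ℝ b' z - inner ℝ b b') +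
        γ * (β' * inner ℝ b z - β * inner ℝ b' z)) = _
      ring
    simp only [e]
    rw [lin_int]
    ring
  simp only [hin] at hT
  rw [← int_gam] at hT
  rw [hT]
  -- integrability
  have bψ : ∀ z, |ψ z| ≤ 1 * (1 + ‖z‖) ^ 1 := fun z => by
    linarith [hψb z]
  have bi : ∀ u z : E n, |(inner ℝ u z : ℝ)| ≤ ‖u‖ * (1 + ‖z‖) ^ 1 := fun u z => by
    rw [pow_one]
    exact inner_bd u z
  have ci : ∀ u : E n, Continuous fun z : E n => (inner ℝ u z : ℝ) := fun u => by fun_prop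
  have I1 : Integrable (fun z => (inner ℝ b z * inner ℝ b' z - inner ℝ b b') * ψ z ^ 2)
      (gam n) := by
    have a1 : Integrable (fun z : E n => (ψ z * ψ z) * (inner ℝ b z * inner ℝ b' z)) (gam n) :=
      int_pb ((hψc.mul hψc).mul ((ci b).mul (ci b'))) _ _ (mul_bd (mul_bd bψ bψ)
        (mul_bd (bi b) (bi b')))
    have a2 : Integrable (fun z : E n => (ψ z * ψ z)) (gam n) :=
      int_pb (hψc.mul hψc) _ _ (mul_bd bψ bψ)
    refine (a1.sub (a2.const_mul (inner ℝ b b'))).congr (Filter.Eventually.of_forall fun z => ?_)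
    simp only [Pi.sub_apply]
    ring
  have I2 : ∀ u : E n, Integrable (fun z => ψ z * inner ℝ u z) (gam n) := fun u =>
    int_pb (hψc.mul (ci u)) _ _ (mul_bd bψ (bi u))
  have I3 : ∀ u v : E n, Integrable (fun z : E n => (inner ℝ u z * inner ℝ v z : ℝ)) (gam n) :=
    fun u v => int_pb ((ci u).mul (ci v)) _ _ (mul_bd (bi u) (bi v))
  have I4 : Integrable (fun z : E n => (inner ℝ p z ^ 2 * (inner ℝ b z * inner ℝ b' z) : ℝ))
      (gam n) := by
    have a1 : Integrable (fun z : E n => ((inner ℝ p z * inner ℝ p z) *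
        (inner ℝ b z * inner ℝ b' z) : ℝ)) (gam n) :=
      int_pb (((ci p).mul (ci p)).mul ((ci b).mul (ci b'))) _ _ (mul_bd (mul_bd (bi p) (bi p))
        (mul_bd (bi b) (bi b')))
    refine a1.congr (Filter.Eventually.of_forall fun z => ?_)
    simp only
    ring
  -- second moments
  have M2 : ∀ u v : E n, ∫ z, (inner ℝ u z * inner ℝ v z : ℝ) ∂(gam n) = inner ℝ u v := by
    intro u v
    rw [← (Pool.Agent.W716.FV.gM n).2.2.2.1 u v]
    refine integral_congr_ae (Filter.Eventually.of_forall fun z => ?_)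
    simp only [real_inner_comm]
  have M4 := (h5 n).1 p b b'
  have Mb : ∀ u : E n, ∫ z, ψ z * inner ℝ u z ∂(gam n) = inner ℝ (mv ψ) u := fun u => (hmv u).symm
  have Mp : ∫ z, (inner ℝ p z ^ 2 : ℝ) ∂(gam n) = ‖p‖ ^ 2 := by
    have := M2 p p
    rw [real_inner_self_eq_norm_sq] at this
    rw [← this]
    refine integral_congr_ae (Filter.Eventually.of_forall fun z => ?_)
    simp only
    ring
  have Ip : Integrable (fun z : E n => (inner ℝ p z ^ 2 : ℝ)) (gam n) := by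
    refine (I3 p p).congr (Filter.Eventually.of_forall fun z => ?_)
    simp only
    ring
  have S : ∫ z, ((ψ z ^ 2 - inner ℝ p z ^ 2) / 2 *
        (inner ℝ b z * inner ℝ b' z - inner ℝ b b') + (ψ z + inner ℝ p z) *
        (γ * (β' * inner ℝ b z - β * inner ℝ b' z))) ∂(gam n) =
      qX ψ b b' - 1 / 2 * (‖p‖ ^ 2 * inner ℝ b b' + 2 * (inner ℝ p b * inner ℝ p b')) +
        1 / 2 * inner ℝ b b' * ‖p‖ ^ 2 + γ * β' * inner ℝ (mv ψ) b - γ * β * inner ℝ (mv ψ) b' +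
        γ * β' * inner ℝ p b - γ * β * inner ℝ p b' := by
    have e : ∀ z : E n, (ψ z ^ 2 - inner ℝ p z ^ 2) / 2 *
        (inner ℝ b z * inner ℝ b' z - inner ℝ b b') + (ψ z + inner ℝ p z) *
        (γ * (β' * inner ℝ b z - β * inner ℝ b' z)) =
        1 / 2 * ((inner ℝ b z * inner ℝ b' z - inner ℝ b b') * ψ z ^ 2) -
        1 / 2 * (inner ℝ p z ^ 2 * (inner ℝ b z * inner ℝ b' z)) +
        1 / 2 * inner ℝ b b' * inner ℝ p z ^ 2 + γ * β' * (ψ z * inner ℝ b z) -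
        γ * β * (ψ z * inner ℝ b' z) + γ * β' * (inner ℝ p z * inner ℝ b z) -
        γ * β * (inner ℝ p z * inner ℝ b' z) := by
      intro z
      ring
    have J1 : HI n (fun z => (inner ℝ b z * inner ℝ b' z - inner ℝ b b') * ψ z ^ 2)
        (∫ z, (inner ℝ b z * inner ℝ b' z - inner ℝ b b') * ψ z ^ 2 ∂(gam n)) := ⟨I1, rfl⟩
    have J2 : HI n _ _ := ⟨I4, M4⟩
    have J3 : HI n _ _ := ⟨Ip, Mp⟩
    have J4 : HI n _ _ := ⟨I2 b, Mb b⟩
    have J5 : HI n _ _ := ⟨I2 b', Mb b'⟩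
    have J6 : HI n _ _ := ⟨I3 p b, M2 p b⟩
    have J7 : HI n _ _ := ⟨I3 p b', M2 p b'⟩
    exact (((((((J1.cmul (1 / 2)).sub (J2.cmul (1 / 2))).add
      (J3.cmul (1 / 2 * inner ℝ b b'))).add (J4.cmul (γ * β'))).sub (J5.cmul (γ * β))).add
      (J6.cmul (γ * β'))).sub (J7.cmul (γ * β))).congr e rfl |>.2
  rw [S]
  have n1 : (inner ℝ b b' : ℝ) = inner ℝ a a' + γ ^ 2 * (β * β') := hNN a a'
  have n2 : (inner ℝ p b : ℝ) = γ * β := hpN a
  have n3 : (inner ℝ p b' : ℝ) = γ * β' := hpN a'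
  have m1 : (inner ℝ b (mv ψ) : ℝ) = inner ℝ (mv ψ) b := real_inner_comm _ _
  have m2 : (inner ℝ b' (mv ψ) : ℝ) = inner ℝ (mv ψ) b' := real_inner_comm _ _
  rw [n2, n3, m1, m2]
  linear_combination n1

end Pool.Agent.Q128.FC.GO
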