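import Pool.Agent.Q188.FC.StmK
import Pool.Agent.W716.FV.Final

/-!
# Change of variables by the boost
-/

set_option autoImplicit false

open MeasureTheory Set

namespace Pool.Agent.Q128.FC.TL

open Pool.Agent.W716.FV (E gam gd)
open Pool.Agent.Q188.FC

theorem cc_abs {n : ℕ} {φ : E n → ℝ} (h : Cc φ) (x : E n) : |φ x| ≤ ‖x‖ := by
  have h0 : φ 0 = 0 := by
    have := h.hom 0 0
    simpa using this
  have := h.lip x 0
  simpa [h0] using this

theorem cc_cont {n : ℕ} {φ : E n → ℝ} (h : Cc φ) : Continuous φ := by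
  have : LipschitzWith 1 φ := by
    refine LipschitzWith.of_dist_le_mul fun x y => ?_
    rw [Real.dist_eq, dist_eq_norm]
    simpa using h.lip x y
  exact this.continuous

/-- the sign function -/
noncomputable def sg (α β t : ℝ) : ℝ := (if t < β then 1 else 0) - (if t < α then 1 else 0)

theorem sg_le {α β : ℝ} (h : α ≤ β) (t : ℝ) :
    sg α β t = (Ico α β).indicator (fun _ => (1 : ℝ)) t := by
  unfold sg
  by_cases h1 : t < β
  · by_cases h2 : t < α
    · have : t ∉ Ico α β := fun h => absurd h2 (not_lt.2 h.1)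
      simp [h1, h2, this]
    · have : t ∈ Ico α β := ⟨not_lt.1 h2, h1⟩
      simp [h1, h2, this]
  · have h2 : ¬ t < α := fun h2 => h1 (h2.trans_le h)
    have : t ∉ Ico α β := fun h => h1 h.2
    simp [h1, h2, this]

theorem sg_neg (α β t : ℝ) : sg α β t = -sg β α t := by
  unfold sg
  ring

theorem sg_abs (α β t : ℝ) : |sg α β t| ≤ 1 := by
  unfold sg
  split_ifs <;> norm_num

theorem sg_bd {α β t r : ℝ} (hα : |α| ≤ r) (hβ : |β| ≤ r) (h : sg α β t ≠ 0) : |t| ≤ r := by
  unfold sg at h
  have a1 := abs_le.1 hα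
  have a2 := abs_le.1 hβ
  rw [abs_le]
  by_cases h1 : t < β <;> by_cases h2 : t < α
  · simp [h1, h2] at h
  · exact ⟨by linarith [not_lt.1 h2], by linarith⟩
  · exact ⟨by linarith [not_lt.1 h1], by linarith⟩
  · simp [h1, h2] at h

variable {W : Type} [NormedAddCommGroup W] [NormedSpace ℝ W]

theorem sg_int (α β : ℝ) (f : ℝ → W) :
    ∫ t, sg α β t • f t = ∫ t in α..β, f t := by
  have key : ∀ α β : ℝ, α ≤ β → ∫ t, sg α β t • f t = ∫ t in α..β, f t := by
    intro α β h
    rw [intervalIntegral.integral_of_le h, ← integral_Ico_eq_integral_Ioc,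
      ← integral_indicator measurableSet_Ico]
    refine integral_congr_ae (Filter.Eventually.of_forall fun t => ?_)
    simp only [sg_le h]
    by_cases ht : t ∈ Ico α β
    · simp [ht]
    · simp [ht]
  rcases le_total α β with h | h
  · exact key α β h
  · rw [intervalIntegral.integral_symm, ← key β α h, ← integral_neg]
    refine integral_congr_ae (Filter.Eventually.of_forall fun t => ?_)
    simp only [sg_neg α β t, neg_smul]

/-- polynomial times the Gaussian density is integrable -/
theorem int_pg (n m : ℕ) : Integrable (fun z : E n => (1 + ‖z‖) ^ m * gd n z) := by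
  have hd : ∀ k : ℕ, Integrable (fun z : E n => ‖z‖ ^ k * gd n z) := by
    intro k
    have h1 := (Pool.Agent.W716.FV.gM n).2.1 k
    unfold gam at h1
    have hg : Measurable (fun x : E n => gd n x) := by
      unfold gd
      fun_prop
    rw [integrable_withDensity_iff_integrable_smul' hg.ennreal_ofReal
      (Filter.Eventually.of_forall fun x => ENNReal.ofReal_lt_top)] at h1
    refine h1.congr (Filter.Eventually.of_forall fun x => ?_)
    have h0 : 0 ≤ gd n x := by
      unfold gd
      positivity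
    simp only [smul_eq_mul]
    rw [ENNReal.toReal_ofReal h0]
    ring
  have h2 : (fun z : E n => (1 + ‖z‖) ^ m * gd n z) =
      fun z : E n => ∑ k ∈ Finset.range (m + 1), (m.choose k : ℝ) * (‖z‖ ^ k * gd n z) := by
    funext z
    rw [add_comm 1 ‖z‖, add_pow, Finset.sum_mul]
    refine Finset.sum_congr rfl fun k _ => ?_
    ring
  rw [h2]
  exact integrable_finsetSum _ fun k _ => (hd k).const_mul _

/-- the dominating function is integrable -/
theorem int_bd (n m : ℕ) (C : ℝ) : Integrable (fun q : ℝ × E n =>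
    (if |q.1| ≤ ‖q.2‖ then C * (1 + ‖q.2‖) ^ m * gd n q.2 else 0)) := by
  have hg : Measurable (fun x : E n => gd n x) := by
    unfold gd
    fun_prop
  have hm : Measurable (fun q : ℝ × E n =>
      (if |q.1| ≤ ‖q.2‖ then C * (1 + ‖q.2‖) ^ m * gd n q.2 else 0)) := by
    refine Measurable.ite ?_ ?_ measurable_const
    · exact measurableSet_le (by fun_prop) (by fun_prop)
    · have : Measurable fun q : ℝ × E n => gd n q.2 := hg.comp measurable_snd
      fun_prop
  rw [Measure.volume_eq_prod, integrable_prod_iff' hm.aestronglyMeasurable]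
  have e1 : ∀ y : E n, (fun x : ℝ => (if |x| ≤ ‖y‖ then C * (1 + ‖y‖) ^ m * gd n y else 0)) =
      (Icc (-‖y‖) ‖y‖).indicator (fun _ => C * (1 + ‖y‖) ^ m * gd n y) := by
    intro y
    funext x
    by_cases h : |x| ≤ ‖y‖
    · have : x ∈ Icc (-‖y‖) ‖y‖ := abs_le.1 h
      simp [h, this]
    · have : x ∉ Icc (-‖y‖) ‖y‖ := fun h' => h (abs_le.2 h')
      simp only [h, if_false, indicator_of_notMem this]
  constructor
  · refine Filter.Eventually.of_forall fun y => ?_
    simp only [e1]
    rw [integrable_indicator_iff measurableSet_Icc]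
    exact integrableOn_const (by simp) 
  · have e2 : ∀ y : E n, ∫ x : ℝ, ‖(if |x| ≤ ‖y‖ then C * (1 + ‖y‖) ^ m * gd n y else 0)‖ =
        2 * ‖y‖ * (|C| * ((1 + ‖y‖) ^ m * gd n y)) := by
      intro y
      have h0 : 0 ≤ gd n y := by
        unfold gd
        positivity
      have h1 : (fun x : ℝ => ‖(if |x| ≤ ‖y‖ then C * (1 + ‖y‖) ^ m * gd n y else 0)‖) =
          (Icc (-‖y‖) ‖y‖).indicator (fun _ => |C| * ((1 + ‖y‖) ^ m * gd n y)) := by
        funext x
        have := congrFun (e1 y) x
        rw [this]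
        by_cases h : x ∈ Icc (-‖y‖) ‖y‖
        · simp only [indicator_of_mem h, Real.norm_eq_abs, abs_mul, abs_of_nonneg h0,
            abs_of_nonneg (pow_nonneg (by positivity : (0:ℝ) ≤ 1 + ‖y‖) m)]
          ring
        · simp only [indicator_of_notMem h, norm_zero]
      rw [h1, integral_indicator measurableSet_Icc, setIntegral_const]
      simp only [measureReal_def, Real.volume_Icc, smul_eq_mul]
      rw [ENNReal.toReal_ofReal (by linarith [norm_nonneg y])]
      ring
    simp only [e2]
    have h3 : Integrable (fun y : E n => 2 * |C| * ((1 + ‖y‖) ^ (m + 1) * gd n y)) :=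
      (int_pg n (m + 1)).const_mul _
    refine h3.mono' ?_ (Filter.Eventually.of_forall fun y => ?_)
    · have : Measurable fun y : E n => 2 * ‖y‖ * (|C| * ((1 + ‖y‖) ^ m * gd n y)) := by fun_prop
      exact this.aestronglyMeasurable
    · have h0 : 0 ≤ gd n y := by
        unfold gd
        positivity
      have hy := norm_nonneg y
      have h4 : 0 ≤ (1 + ‖y‖) ^ m * gd n y := by positivity
      rw [Real.norm_eq_abs, abs_of_nonneg (by positivity)]
      have h5 : (1 + ‖y‖) ^ (m + 1) * gd n y = (1 + ‖y‖) * ((1 + ‖y‖) ^ m * gd n y) := by ring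
      rw [h5]
      have h6 : 0 ≤ |C| * ((1 + ‖y‖) ^ m * gd n y) := by positivity
      nlinarith [abs_nonneg C]

theorem int_g {n : ℕ} {a b : E n → ℝ} (ha : Cc a) (hb : Cc b) {k : ℝ × E n → W} {C : ℝ} {m : ℕ}
    (hk : Continuous k)
    (hbd : ∀ (t : ℝ) (z : E n), |t| ≤ ‖z‖ → ‖k (t, z)‖ ≤ C * (1 + ‖z‖) ^ m * gd n z) :
    Integrable (fun q : ℝ × E n => sg (a q.2) (b q.2) q.1 • k q) := by
  refine (int_bd n m C).mono' ?_ (Filter.Eventually.of_forall fun q => ?_)
  · refine AEStronglyMeasurable.smul ?_ hk.aestronglyMeasurable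
    have : Measurable fun q : ℝ × E n => sg (a q.2) (b q.2) q.1 := by
      unfold sg
      have h1 := (cc_cont ha).measurable
      have h2 := (cc_cont hb).measurable
      refine Measurable.sub (Measurable.ite ?_ measurable_const measurable_const)
        (Measurable.ite ?_ measurable_const measurable_const)
      · exact measurableSet_lt measurable_fst (h2.comp measurable_snd)
      · exact measurableSet_lt measurable_fst (h1.comp measurable_snd)
    exact this.aestronglyMeasurable
  · by_cases h : sg (a q.2) (b q.2) q.1 = 0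
    · rw [h, zero_smul, norm_zero]
      split_ifs with h'
      · exact (norm_nonneg _).trans (hbd q.1 q.2 h')
      · exact le_rfl
    · have h1 := sg_bd (cc_abs ha q.2) (cc_abs hb q.2) h
      rw [if_pos h1, norm_smul, Real.norm_eq_abs]
      calc _ ≤ 1 * ‖k q‖ := mul_le_mul_of_nonneg_right (sg_abs _ _ _) (norm_nonneg _)
        _ ≤ _ := by
          rw [one_mul]
          exact hbd q.1 q.2 h1

theorem main (h1 : BoostAlg) : TLs := by
  intro n p hp φ₁ φ₂ ψ₁ ψ₂ hφ₁ hφ₂ hψ₁ hψ₂ hh₁ hh₂ W _ _ _ k C m hk hbd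
  obtain ⟨-, -, -, -, -, -, -, -, -, -, -, hLL, -, hcont, hmp, -, -⟩ := h1 n p hp
  have hI : Integrable (fun q : ℝ × E n => sg (ψ₁ q.2) (ψ₂ q.2) q.1 • k q) :=
    int_g hψ₁ hψ₂ hk hbd
  have hs : ∀ q : ℝ × E n, sg (ψ₁ (Lam p q).2) (ψ₂ (Lam p q).2) (Lam p q).1 =
      sg (φ₁ q.2) (φ₂ q.2) q.1 := by
    intro q
    have e1 := hh₁ (Lam p q).1 (Lam p q).2
    have e2 := hh₂ (Lam p q).1 (Lam p q).2
    rw [Prod.mk.eta, hLL] at e1 e2
    unfold sg
    simp only [e1, e2]
  have hI' : Integrable (fun q : ℝ × E n => sg (φ₁ q.2) (φ₂ q.2) q.1 • k (Lam p q)) := by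
    have := (hmp.integrable_comp hI.aestronglyMeasurable).2 hI
    refine this.congr (Filter.Eventually.of_forall fun q => ?_)
    simp only [Function.comp, hs]
  have hE : ∫ q : ℝ × E n, sg (φ₁ q.2) (φ₂ q.2) q.1 • k (Lam p q) =
      ∫ q : ℝ × E n, sg (ψ₁ q.2) (ψ₂ q.2) q.1 • k q := by
    have h2 := integral_map hmp.measurable.aemeasurable
      (f := fun q : ℝ × E n => sg (ψ₁ q.2) (ψ₂ q.2) q.1 • k q) (by
        rw [hmp.map_eq]
        exact hI.aestronglyMeasurable)
    rw [hmp.map_eq] at h2
    rw [h2]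
    refine integral_congr_ae (Filter.Eventually.of_forall fun q => ?_)
    simp only [hs]
  rw [Measure.volume_eq_prod] at hI hI' hE
  have i1 := hI'.integral_prod_right
  have i2 := hI.integral_prod_right
  have j1 := integral_prod_symm _ hI'
  have j2 := integral_prod_symm _ hI
  simp only [sg_int] at i1 i2 j1 j2
  exact ⟨i1, i2, by rw [← j2, ← hE, j1]⟩

end Pool.Agent.Q128.FC.TL
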